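import Pool.Agent.H920R2.Cw8

/-!
MP_4d1008_ag: every integral scheme of finite type over `ℤ` birational to the quotient of a product
of curves over a finite field of characteristic `p` by a diagonal automorphism of order `p` has a
regular model proper over `ℤ`.
-/

set_option autoImplicit false

open AlgebraicGeometry CategoryTheory TensorProduct Pool.Agent.H920R2

namespace Pool.Agent.Results.MP_4d1008_ag.CurveQuotients

/-- The linear map from the tensor product of subfields `K i` of `L` to `L` which maps `⨂ x i` to
the product of the `x i`. -/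
noncomputable def mulMap {k L : Type} [Field k] [Field L] [Algebra k L] {n : ℕ}
    (K : Fin n → IntermediateField k L) : (⨂[k] i, K i) →ₗ[k] L :=
  PiTensorProduct.lift ((MultilinearMap.mkPiAlgebra k (Fin n) L).compLinearMap
    fun i => (K i).val.toLinearMap)

/-- Let `k` be a finite field of characteristic `p`, and `L` a field extension of `k` generated by
linearly disjoint function fields of one variable `K i` (`i < n`), i.e. the function field of the
product of the corresponding curves. Let `τ ≠ 1` be an automorphism of `L` over `k` with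
`τ ^ p = 1` which maps every `K i` into itself. Then every integral scheme `Y` of finite type over
`ℤ` whose function field is isomorphic to the field of invariants of `τ` has a regular model proper
over `ℤ`. -/
theorem result (p : ℕ) [Fact p.Prime] (k : Type) [Field k] [Finite k] [CharP k p]
    (L : Type) [Field L] [Algebra k L] (n : ℕ) (K : Fin n → IntermediateField k L)
    (hfg : ∀ i, (K i).FG) (htr : ∀ i, Algebra.trdeg k (K i) = 1)
    (hdisj : Function.Injective (mulMap K)) (hgen : ⨆ i, K i = ⊤)
    (τ : L ≃ₐ[k] L) (hτ : τ ^ p = 1) (hτ1 : τ ≠ 1) (hst : ∀ i, ∀ x ∈ K i, τ x ∈ K i)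
    (Y : Scheme.{0}) (_ : IsIntegral Y) (s : Y ⟶ Spec (CommRingCat.of ℤ))
    (_ : LocallyOfFiniteType s) (_ : QuasiCompact s)
    (_ : Nonempty (Y.functionField ≃+* IntermediateField.fixedField (Subgroup.zpowers τ))) :
    ∃ (X' : Scheme.{0}) (_ : IsIntegral X') (g : X' ⟶ Spec (CommRingCat.of ℤ)),
      IsProper g ∧
      (∀ x : X',
        (((Module.finrank (IsLocalRing.ResidueField (X'.presheaf.stalk x))
            (IsLocalRing.CotangentSpace (X'.presheaf.stalk x)) : ℕ∞)) : WithBot ℕ∞)
          = ringKrullDim (X'.presheaf.stalk x)) ∧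
      Nonempty (X'.functionField ≃+* Y.functionField) := by
  classical
  have hp : p.Prime := Fact.out
  have hpk : (p : k) = 0 := CharP.cast_eq_zero k p
  have hτ' : ∀ x, τ^[p] x = x := by
    intro x
    have h1 : ∀ (n : ℕ) x, (τ ^ n) x = τ^[n] x := by
      intro n
      induction n with
      | zero => intro x; rfl
      | succ n ih => intro x; rw [pow_succ, Function.iterate_succ_apply, ← ih]; rfl
    rw [← h1, hτ]
    rfl
  have hex : ∃ x, τ x ≠ x := by
    by_contra hcon
    push Not at hcon
    exact hτ1 (AlgEquiv.ext hcon)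
  have hfg' : ∀ i, Algebra.EssFiniteType k (K i) :=
    fun i => IntermediateField.essFiniteType_iff.2 (hfg i)
  have hgen' : ⨆ i, ((K i).val).fieldRange = ⊤ := by
    rw [← hgen]
    exact iSup_congr fun i => IntermediateField.fieldRange_val (K i)
  obtain ⟨W, hW, I, hI, z, J, hM⟩ := curves_model' (K := fun i => K i) (fun i => (K i).val) hp hpk
    hfg' htr hdisj hgen' τ hτ' hex (fun i x => ⟨⟨τ x, hst i x x.2⟩, rfl⟩)
  obtain ⟨X', hX', g, h1, h2, ⟨h3⟩⟩ := exists_regular_model (fixF τ) hM hW
  obtain ⟨e⟩ := ‹Nonempty (Y.functionField ≃+* IntermediateField.fixedField (Subgroup.zpowers τ))›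
  have hfix : fixF τ = IntermediateField.fixedField (Subgroup.zpowers τ) := by
    ext x
    rw [mem_fixF, IntermediateField.mem_fixedField_iff]
    constructor
    · rintro hx _ ⟨m, rfl⟩
      have h2 : τ ∈ MulAction.stabilizer (L ≃ₐ[k] L) x := hx
      exact (MulAction.stabilizer (L ≃ₐ[k] L) x).zpow_mem h2 m
    · intro hx
      exact hx τ (Subgroup.mem_zpowers τ)
  rw [← hfix] at e
  exact ⟨X', hX', g, h1, h2, ⟨h3.trans e.symm⟩⟩

end Pool.Agent.Results.MP_4d1008_ag.CurveQuotients
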