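import Pool.Agent.H918R2.Quad.Final2

/-!
MP_4d1008_ag: every integral scheme of finite type over `ℤ` birational to an irreducible affine
hypersurface of degree at most two over a number field (any dimension, dyadic primes included) has
a regular model proper over `ℤ`.
-/

set_option autoImplicit false

open AlgebraicGeometry CategoryTheory

namespace Pool.Agent.Results.MP_4d1008_ag.DegreeTwo

open MvPolynomial in
theorem result :
    ∀ (K : Type) [Field K] [NumberField K] (N : ℕ) (f : MvPolynomial (Fin N) K),
      Irreducible f → f.totalDegree ≤ 2 →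
      ∀ (Y : Scheme.{0}) (_ : IsIntegral Y) (s : Y ⟶ Spec (CommRingCat.of ℤ)),
      LocallyOfFiniteType s → QuasiCompact s →
      Nonempty (Y.functionField ≃+* FractionRing (MvPolynomial (Fin N) K ⧸ Ideal.span {f})) →
      ∃ (X' : Scheme.{0}) (_ : IsIntegral X') (g : X' ⟶ Spec (CommRingCat.of ℤ)),
        IsProper g ∧
        (∀ x : X',
          (((Module.finrank (IsLocalRing.ResidueField (X'.presheaf.stalk x))
              (IsLocalRing.CotangentSpace (X'.presheaf.stalk x)) : ℕ∞)) : WithBot ℕ∞)
            = ringKrullDim (X'.presheaf.stalk x)) ∧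
        Nonempty (X'.functionField ≃+* Y.functionField) := by
  intro K _ _ N f hf hdeg Y hY s _ _ ⟨e⟩
  exact Pool.Agent.H918R2.Quad.degree_two_model N f hf hdeg e

end Pool.Agent.Results.MP_4d1008_ag.DegreeTwo
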