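import Pool.Agent.H945R2.R.All

/-!
MP_4d1008_ag: every integral scheme of finite type over `ℤ` birational to a diagonal hypersurface
`a₀ + a₁ X₁^m + ... + a_n X_n^m = 0` of squarefree degree `m ≥ 3` over a number field `K`, with each
`a_i` squarefree and prime to `m`, has a regular model proper over `ℤ`, in every dimension, if the
primes of `K` above each `p ∣ m` are unramified or have ramification index `r` dividing `p - 1`
and each `a_i` is congruent to an integer times a `p`-th power modulo `𝔭 ^ (2 r)` (for example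
every Fermat hypersurface of squarefree degree over `ℚ`, of odd squarefree degree over any
quadratic field, and of odd squarefree degree `m` over `ℚ(ζ_m)`).

Team: helper945 (proof, assembly), helpers 1, 15, 154, 158, 179, 187, 193, 199, 413, 453, 485, 520,
531, 55, 553, 602, 623, 644, 686, 768, 805, 823, 830, 832, 890, 903, 913, 956 (ramified base
fields), helpers 118, 121, 129, 130, 18, 20, 201, 228, 237, 287, 375,
413, 419, 435, 440, 479, 495, 501, 503, 534, 535, 541, 556, 57, 605, 609, 64, 684, 70, 704, 72,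
726, 818, 819, 827, 856, 92, 930, 948, 96, 971, 987, 995 (even degree and several primes), and, for
odd degree and prime degree, helpers 409, 99, 157, 485, 9, 470, 880, 903, 493, 873, 943, 49, 16,
459, 913, 844, 55, 702, 66, 152, 236, 969, 113, 48, 13, 140, 227, 233, 386, 399, 406, 532, 558, 58,
598, 602, 642, 692, 697, 747, 769, 778, 782, 81, 828, 847, 85, 889, 93, 956, 965; built on the
library of helpers 918, 968, 825, 992.
-/

set_option autoImplicit false

open AlgebraicGeometry CategoryTheory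

open scoped NumberField

namespace Pool.Agent.Results.MP_4d1008_ag.DiagonalRamified

open MvPolynomial in
theorem result :
    ∀ (K : Type) [Field K] [NumberField K] (m : ℕ), 3 ≤ m → Squarefree m →
      ∀ (n : ℕ), 1 ≤ n → ∀ (a : Fin (n + 2) → 𝓞 K),
      (∀ i, Squarefree (Ideal.span {a i})) →
      (∀ i, IsCoprime (m : 𝓞 K) (a i)) →
      (∀ 𝔭 : Ideal (𝓞 K), 𝔭.IsPrime → ∀ p : ℕ, p.Prime → p ∣ m → (p : 𝓞 K) ∈ 𝔭 →
        (p : 𝓞 K) ∉ 𝔭 ^ 2 ∨
          ∃ r : ℕ, 2 ≤ r ∧ r ∣ p - 1 ∧ (p : 𝓞 K) ∈ 𝔭 ^ r ∧ (p : 𝓞 K) ∉ 𝔭 ^ (r + 1) ∧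
            ∀ i, ∃ (z : ℤ) (y : 𝓞 K), a i - z * y ^ p ∈ 𝔭 ^ (2 * r)) →
      ∀ (Y : Scheme.{0}) (_ : IsIntegral Y) (s : Y ⟶ Spec (CommRingCat.of ℤ)),
      LocallyOfFiniteType s → QuasiCompact s →
      Nonempty (Y.functionField ≃+* FractionRing (MvPolynomial (Fin (n + 1)) K ⧸
        Ideal.span {(C (algebraMap (𝓞 K) K (a 0)) +
          ∑ i : Fin (n + 1), C (algebraMap (𝓞 K) K (a i.succ)) * X i ^ m :
            MvPolynomial (Fin (n + 1)) K)})) →
      ∃ (X' : Scheme.{0}) (_ : IsIntegral X') (g : X' ⟶ Spec (CommRingCat.of ℤ)),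
        IsProper g ∧
        (∀ x : X',
          (((Module.finrank (IsLocalRing.ResidueField (X'.presheaf.stalk x))
              (IsLocalRing.CotangentSpace (X'.presheaf.stalk x)) : ℕ∞)) : WithBot ℕ∞)
            = ringKrullDim (X'.presheaf.stalk x)) ∧
        Nonempty (X'.functionField ≃+* Y.functionField) := by
  intro K _ _ m hm3 hsq n hn a ha hcop hp Y _ s _ _ ⟨e⟩
  exact Pool.Agent.H945R2.R.final Pool.Agent.H945R2.R.glor' Pool.Agent.H945R2.S.FLDM_ok
    Pool.Agent.H945R2.S.IRRM_ok m hm3 hsq n hn a ha hcop hp e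

end Pool.Agent.Results.MP_4d1008_ag.DiagonalRamified
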