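import Pool.Agent.H920R2.Cy11
import Pool.Agent.H920R2.Gl4

/-!
MP_4d1008_ag: every integral scheme of finite type over `ℤ` birational to the quotient of a power
of a smooth projective variety over a finite field of characteristic `p` by a permutation of the
factors of order `p` has a regular model proper over `ℤ`.
-/

set_option autoImplicit false

open AlgebraicGeometry CategoryTheory TensorProduct Pool.Agent.H920R2

namespace Pool.Agent.Results.MP_4d1008_ag.PowerQuotients

/-- The linear map from the tensor power of `K` to `L` which maps `⨂ x i` to the product of the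
`e i (x i)`. -/
noncomputable def mulMap {k K L : Type} [Field k] [Field K] [Algebra k K] [Field L] [Algebra k L]
    {n : ℕ} (e : Fin n → K →ₐ[k] L) : (⨂[k] _ : Fin n, K) →ₗ[k] L :=
  PiTensorProduct.lift ((MultilinearMap.mkPiAlgebra k (Fin n) L).compLinearMap
    fun i => (e i).toLinearMap)

/-- The field extension `K` of `k` is generated by the ratios of the nonzero elements
`z 0, …, z m`, and every algebra `k[z 0 / z i, …, z m / z i]` is smooth over `k`: the `z i` are the
homogeneous coordinates of a smooth projective variety over `k` with function field `K`. -/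
structure IsSmoothProjective (k : Type) {K : Type} [Field k] [Field K] [Algebra k K] {m : ℕ}
    (z : Fin (m + 1) → K) : Prop where
  ne_zero : ∀ i, z i ≠ 0
  smooth : ∀ i, Algebra.Smooth k (Algebra.adjoin k (Set.range fun j => z j / z i))
  generate : IntermediateField.adjoin k (Set.range fun j => z j / z 0) = ⊤

/-- Let `k` be a finite field of characteristic `p`, `K` the function field of a smooth projective
variety `W` over `k`, and `L` a field extension of `k` generated by `n` linearly disjoint copies
`e i (K)` of `K`, i.e. the function field of `W ^ n`. Let `τ ≠ 1` be an automorphism of `L` over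
`k` which permutes the copies of `K`: `τ ∘ e i = e (π i)`, with `π ^ p = 1`. Then every integral
scheme `Y` of finite type over `ℤ` whose function field is isomorphic to the field of invariants of
`τ` has a regular model proper over `ℤ`. -/
theorem result (p : ℕ) [Fact p.Prime] (k : Type) [Field k] [Finite k] [CharP k p]
    (K : Type) [Field K] [Algebra k K] (m : ℕ) (z : Fin (m + 1) → K) (hz : IsSmoothProjective k z)
    (L : Type) [Field L] [Algebra k L] (n : ℕ) (e : Fin n → K →ₐ[k] L)
    (hdisj : Function.Injective (mulMap e)) (hgen : ⨆ i, (e i).fieldRange = ⊤)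
    (π : Equiv.Perm (Fin n)) (hπ : π ^ p = 1)
    (τ : L ≃ₐ[k] L) (hτ : ∀ i x, τ (e i x) = e (π i) x) (hτ1 : τ ≠ 1)
    (Y : Scheme.{0}) (_ : IsIntegral Y) (s : Y ⟶ Spec (CommRingCat.of ℤ))
    (_ : LocallyOfFiniteType s) (_ : QuasiCompact s)
    (_ : Nonempty (Y.functionField ≃+* IntermediateField.fixedField (Subgroup.zpowers τ))) :
    ∃ (X' : Scheme.{0}) (_ : IsIntegral X') (g : X' ⟶ Spec (CommRingCat.of ℤ)),
      IsProper g ∧
      (∀ x : X',
        (((Module.finrank (IsLocalRing.ResidueField (X'.presheaf.stalk x))
            (IsLocalRing.CotangentSpace (X'.presheaf.stalk x)) : ℕ∞)) : WithBot ℕ∞)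
          = ringKrullDim (X'.presheaf.stalk x)) ∧
      Nonempty (X'.functionField ≃+* Y.functionField) := by
  classical
  have hp : p.Prime := Fact.out
  have hpk : (p : k) = 0 := CharP.cast_eq_zero k p
  obtain ⟨g, hg, hgl⟩ := exists_mulMap (K := fun _ : Fin n => K) e
  have hginj : Function.Injective g := by
    intro a b hab
    apply hdisj
    change PiTensorProduct.lift _ a = PiTensorProduct.lift _ b
    rw [← hgl, ← hgl]
    exact hab
  have hfr : ∀ x : L, ∃ a b, g b ≠ 0 ∧ x = g a / g b := by
    have htop : frF g = ⊤ := by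
      rw [eq_top_iff, ← hgen, iSup_le_iff]
      rintro i _ ⟨x, rfl⟩
      have h1 := FrB.of (g : (⨂[k] _ : Fin n, K) →+* L)
        (PiTensorProduct.singleAlgHom (R := k) (A := fun _ : Fin n => K) i x)
      have h2 : (g : (⨂[k] _ : Fin n, K) →+* L)
        (PiTensorProduct.singleAlgHom (R := k) (A := fun _ : Fin n => K) i x) = e i x := hg i x
      rw [h2] at h1
      exact h1
    intro x
    have h1 : x ∈ frF g := by rw [htop]; trivial
    exact h1
  have hτi : ∀ (l : ℕ) i x, τ^[l] (e i x) = e ((π ^ l) i) x := by
    intro l
    induction l with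
    | zero => intro i x; rfl
    | succ l ih =>
      intro i x
      rw [Function.iterate_succ_apply, hτ, ih, pow_succ]
      rfl
  have hτp : ∀ x, τ^[p] x = x := by
    have h0 : (⊤ : IntermediateField k L) ≤ fixF (τ ^ p) := by
      rw [← hgen, iSup_le_iff]
      rintro i _ ⟨x, rfl⟩
      change (τ ^ p) (e i x) = e i x
      have h1 : ∀ (n : ℕ) x, (τ ^ n) x = τ^[n] x := by
        intro n
        induction n with
        | zero => intro x; rfl
        | succ n ih => intro x; rw [pow_succ, Function.iterate_succ_apply, ← ih]; rfl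
      rw [h1, hτi, hπ]
      rfl
    intro x
    have h1 : ∀ (n : ℕ) x, (τ ^ n) x = τ^[n] x := by
      intro n
      induction n with
      | zero => intro x; rfl
      | succ n ih => intro x; rw [pow_succ, Function.iterate_succ_apply, ← ih]; rfl
    rw [← h1]
    exact h0 (show x ∈ (⊤ : IntermediateField k L) from trivial)
  have hex : ∃ x, τ x ≠ x := by
    by_contra hcon
    push Not at hcon
    exact hτ1 (AlgEquiv.ext hcon)
  obtain ⟨N, W, hW, I, hI, z', J, hM⟩ := model_perm hz.ne_zero hz.smooth hz.generate e hg hginj hfr
    hp hpk τ hτp π hπ hτ hex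
  obtain ⟨X', hX', g, h1, h2, ⟨h3⟩⟩ := exists_regular_model (fixF τ) hM hW
  obtain ⟨ε⟩ := ‹Nonempty (Y.functionField ≃+* IntermediateField.fixedField (Subgroup.zpowers τ))›
  have hfix : fixF τ = IntermediateField.fixedField (Subgroup.zpowers τ) := by
    ext x
    rw [mem_fixF, IntermediateField.mem_fixedField_iff]
    constructor
    · rintro hx _ ⟨m, rfl⟩
      have h2 : τ ∈ MulAction.stabilizer (L ≃ₐ[k] L) x := hx
      exact (MulAction.stabilizer (L ≃ₐ[k] L) x).zpow_mem h2 m
    · intro hx
      exact hx τ (Subgroup.mem_zpowers τ)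
  rw [← hfix] at ε
  exact ⟨X', hX', g, h1, h2, ⟨h3.trans ε.symm⟩⟩

end Pool.Agent.Results.MP_4d1008_ag.PowerQuotients
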